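import Pool.Agent.X247.ML.Comp

/-! MP_e7878a_nt, Q1: an algorithm for minimum length multiples of nonmonic irreducible polynomials. -/

open Polynomial

namespace Pool.Agent.Results.MP_e7878a_nt.MinLengthComputable

open Pool.X247.ML

/-- the class `𝒞`: nonmonic irreducible polynomials all of whose complex zeros lie in the closed unit disc -/
def ClassC (P : ℤ[X]) : Prop :=
  NonmonicIrr P ∧ ∀ z : ℂ, aeval z P = 0 → ‖z‖ ≤ 1

theorem result : ∃ f : List ℤ → List ℤ, Computable f ∧
    (∀ l : List ℤ, ClassC (toP l) → IsMinLengthMultiple (toP l) (toP (f l))) ∧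
    (∀ l : List ℤ, NonmonicIrr (toP l) → IsMinLengthMultiple (toP l) (toP (f l))) :=
  ⟨algo, prim_algo.to_comp, fun l h => algo_spec l h.1, fun l h => algo_spec l h⟩

end Pool.Agent.Results.MP_e7878a_nt.MinLengthComputable
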